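import Pool.Agent.H110R3.BP.Sub

/-!
Bipartite plane graphs have no real chromatic roots in `[4, ∞)`.
-/

set_option autoImplicit false

namespace Pool.Agent.Results.MP_569662_co.RootFreeFromFour

/-- `f` is a drawing of `G` in the plane with straight non-crossing edges: vertices are distinct
points, no vertex lies in the interior of an edge, and the interiors of different edges are
disjoint. -/
def StraightDrawing {V : Type} (G : SimpleGraph V) (f : V → ℝ × ℝ) : Prop :=
  Function.Injective f ∧
  (∀ u v w : V, G.Adj u v → f w ∉ openSegment ℝ (f u) (f v)) ∧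
  (∀ u v u' v' : V, G.Adj u v → G.Adj u' v' → s(u, v) ≠ s(u', v') →
    Disjoint (openSegment ℝ (f u) (f v)) (openSegment ℝ (f u') (f v')))

/-- The chromatic polynomial (written as the subgraph expansion) of a finite bipartite graph drawn
in the plane with straight non-crossing edges is positive at every real `t ≥ 4`. -/
theorem result (V : Type) [Fintype V] [DecidableEq V] (G : SimpleGraph V) [DecidableRel G.Adj]
    (hG : G.Colorable 2) (f : V → ℝ × ℝ) (hf : StraightDrawing G f) (t : ℝ) (ht : 4 ≤ t) :
    0 < ∑ A ∈ G.edgeFinset.powerset, (-1 : ℝ) ^ A.card *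
      t ^ Nat.card (SimpleGraph.fromEdgeSet (A : Set (Sym2 V))).ConnectedComponent :=
  Pool.Agent.H110R3.BP.expansion_pos G hG f hf t ht

end Pool.Agent.Results.MP_569662_co.RootFreeFromFour
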